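import Pool.Agent.P8H91.GR.Lat

/-!
# Covering the lattice points of a dilate
-/

set_option autoImplicit false

namespace Pool.Agent.P8H91.PV

open Finset MeasureTheory Pool.Agent.P8H91.GR
open scoped Pointwise

/-- The lattice points of `m B` are covered by `(2 m + 1) ^ d` translates of those of `B`. -/
theorem lat_cover {d : ℕ} (B : Set (Fin d → ℝ)) (hB : Body B) (m : ℕ) :
    ∃ F : Finset (Fin d → ℤ), F.card ≤ (2 * m + 1) ^ d ∧
      ∀ y ∈ pts ((m : ℝ) • B), ∃ x ∈ F, y - x ∈ pts B := by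
  classical
  have hfin1 : (pts B).Finite := pts_finite B hB.2.1.isBounded
  have hfinm : (pts ((m : ℝ) • B)).Finite := pts_finite _ (hB.2.1.smul _).isBounded
  set Λ : Finset (Fin d → ℤ) := hfinm.toFinset with hΛ
  set r : (Fin d → ℤ) → (Fin d → ℝ) := fun c i => (c i : ℝ) with hr
  -- maximal separated sets
  set 𝓕 : Finset (Finset (Fin d → ℤ)) :=
    Λ.powerset.filter (fun F => ∀ x ∈ F, ∀ y ∈ F, x ≠ y → r (x - y) ∉ B) with h𝓕
  have hne : 𝓕.Nonempty := ⟨∅, mem_filter.2 ⟨mem_powerset.2 (Finset.empty_subset _),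
    fun x hx => absurd hx (Finset.notMem_empty x)⟩⟩
  obtain ⟨F, hF, hmax⟩ := Finset.exists_max_image 𝓕 Finset.card hne
  obtain ⟨hFΛ, hsep⟩ := mem_filter.1 hF
  rw [mem_powerset] at hFΛ
  have hrsub : ∀ x y : Fin d → ℤ, r (x - y) = r x - r y := by
    intro x y
    ext i
    simp [hr]
  -- covering
  have hcov : ∀ y ∈ Λ, ∃ x ∈ F, r (y - x) ∈ B := by
    intro y hy
    by_contra hcon
    push Not at hcon
    have hyF : y ∉ F := by
      intro hyF
      apply hcon y hyF
      rw [sub_self]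
      have h0 := body_zero hB
      have e : r (0 : Fin d → ℤ) = 0 := by ext i; simp [hr]
      rw [e]
      exact h0
    have h1 : insert y F ∈ 𝓕 := by
      refine mem_filter.2 ⟨mem_powerset.2 (Finset.insert_subset hy hFΛ), ?_⟩
      intro u hu v hv huv
      rcases Finset.mem_insert.1 hu with rfl | hu'
      · rcases Finset.mem_insert.1 hv with rfl | hv'
        · exact absurd rfl huv
        · exact hcon v hv'
      · rcases Finset.mem_insert.1 hv with rfl | hv'
        · intro hB'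
          apply hcon u hu'
          have h2 := hB.2.2.2 _ hB'
          have e : -(r (u - v)) = r (v - u) := by rw [hrsub, hrsub]; abel
          rw [e] at h2
          exact h2
        · exact hsep u hu' v hv' huv
    have h2 := hmax _ h1
    rw [Finset.card_insert_of_notMem hyF] at h2
    omega
  -- the size of `F`
  have hvol : F.card ≤ (2 * m + 1) ^ d := by
    have hB0 : 0 < volume B := by
      have h1 : 0 < volume (interior B) := isOpen_interior.measure_pos _ hB.2.2.1
      exact lt_of_lt_of_le h1 (measure_mono interior_subset)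
    have hBtop : volume B ≠ ⊤ := hB.2.1.measure_lt_top.ne
    have hmeas : MeasurableSet B := hB.2.1.measurableSet
    set H : Set (Fin d → ℝ) := (1 / 2 : ℝ) • B with hH
    have hHmeas : MeasurableSet H := hmeas.const_smul₀ _
    have hdisj : (F : Set (Fin d → ℤ)).PairwiseDisjoint (fun x => (r x) +ᵥ H) := by
      intro x hx y hy hxy
      rw [Function.onFun, Set.disjoint_left]
      rintro z ⟨b, ⟨b', hb', rfl⟩, rfl⟩ ⟨c, ⟨c', hc', rfl⟩, hc⟩
      apply hsep x hx y hy hxy
      have e : r (x - y) = (1 / 2 : ℝ) • (c' - b') := by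
        rw [hrsub, smul_sub]
        have h1 : r y + (1 / 2 : ℝ) • c' = r x + (1 / 2 : ℝ) • b' := hc
        have h2 : r x - r y = (1 / 2 : ℝ) • c' - (1 / 2 : ℝ) • b' := by
          rw [sub_eq_sub_iff_add_eq_add]
          rw [add_comm ((1 / 2 : ℝ) • c') (r y)]
          exact h1.symm
        exact h2
      rw [e]
      exact body_mid hB hc' hb'
    have hsub : (⋃ x ∈ F, (r x) +ᵥ H) ⊆ ((m : ℝ) + 1 / 2) • B := by
      intro z hz
      simp only [Set.mem_iUnion] at hz
      obtain ⟨x, hx, b, ⟨b', hb', rfl⟩, rfl⟩ := hz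
      have hxΛ : x ∈ pts ((m : ℝ) • B) := by
        have := hFΛ hx
        rwa [hΛ, Set.Finite.mem_toFinset] at this
      obtain ⟨a, ha, hae⟩ := hxΛ
      have hpos : (0 : ℝ) < (m : ℝ) + 1 / 2 := by positivity
      refine ⟨((m : ℝ) / ((m : ℝ) + 1 / 2)) • a + ((1 / 2 : ℝ) / ((m : ℝ) + 1 / 2)) • b', ?_, ?_⟩
      · apply hB.1 ha hb' (by positivity) (by positivity)
        rw [← add_div, div_self hpos.ne']
      · show ((m : ℝ) + 1 / 2) • (((m : ℝ) / ((m : ℝ) + 1 / 2)) • a + ((1 / 2 : ℝ) / ((m : ℝ) + 1 / 2)) • b') =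
          r x + (1 / 2 : ℝ) • b'
        rw [smul_add, smul_smul, smul_smul, mul_div_cancel₀ _ hpos.ne',
          mul_div_cancel₀ _ hpos.ne']
        congr 1
    have h1 : volume (⋃ x ∈ F, (r x) +ᵥ H) = ∑ x ∈ F, volume ((r x) +ᵥ H) :=
      measure_biUnion_finset hdisj fun x _ => hHmeas.const_vadd _
    have h2 : ∀ x ∈ F, volume ((r x) +ᵥ H) = volume H := fun x _ => measure_vadd _ _ _
    have h3 : volume H = ENNReal.ofReal ((1 / 2 : ℝ) ^ d) * volume B := by
      rw [hH, Measure.addHaar_smul]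
      simp only [Module.finrank_fintype_fun_eq_card, Fintype.card_fin]
      rw [abs_of_nonneg (by positivity)]
    have h4 : volume (((m : ℝ) + 1 / 2) • B) = ENNReal.ofReal (((m : ℝ) + 1 / 2) ^ d) * volume B := by
      rw [Measure.addHaar_smul]
      simp only [Module.finrank_fintype_fun_eq_card, Fintype.card_fin]
      rw [abs_of_nonneg (by positivity)]
    have h5 : (F.card : ENNReal) * (ENNReal.ofReal ((1 / 2 : ℝ) ^ d) * volume B) ≤
        ENNReal.ofReal (((m : ℝ) + 1 / 2) ^ d) * volume B := by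
      calc (F.card : ENNReal) * (ENNReal.ofReal ((1 / 2 : ℝ) ^ d) * volume B)
          = ∑ x ∈ F, volume ((r x) +ᵥ H) := by
            rw [Finset.sum_congr rfl h2, Finset.sum_const, nsmul_eq_mul, h3]
        _ = volume (⋃ x ∈ F, (r x) +ᵥ H) := h1.symm
        _ ≤ volume (((m : ℝ) + 1 / 2) • B) := measure_mono hsub
        _ = _ := h4
    have h6 : (F.card : ℝ) * (1 / 2 : ℝ) ^ d ≤ ((m : ℝ) + 1 / 2) ^ d := by
      rw [← mul_assoc] at h5
      have h7 := (ENNReal.mul_le_mul_iff_left hB0.ne' hBtop).1 h5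
      rw [← ENNReal.ofReal_natCast, ← ENNReal.ofReal_mul (by positivity)] at h7
      exact (ENNReal.ofReal_le_ofReal_iff (by positivity)).1 h7
    have h8 : (F.card : ℝ) ≤ (2 * m + 1) ^ d := by
      have h9 : ((m : ℝ) + 1 / 2) ^ d = (2 * m + 1) ^ d * (1 / 2 : ℝ) ^ d := by
        rw [← mul_pow]; congr 1; ring
      rw [h9] at h6
      exact le_of_mul_le_mul_right h6 (by positivity)
    exact_mod_cast h8
  exact ⟨F, hvol, fun y hy => hcov y ((Set.Finite.mem_toFinset _).2 hy)⟩

theorem diff_cover {d : ℕ} (B : Set (Fin d → ℝ)) (hB : Body B) :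
    ∃ Y : Finset (Fin d → ℤ), Y.card ≤ 5 ^ d ∧
      ∀ x ∈ pts B, ∀ y ∈ pts B, ∃ w ∈ Y, ∃ z ∈ pts B, x - y = w + z := by
  obtain ⟨Y, h1, h2⟩ := lat_cover B hB 2
  refine ⟨Y, by simpa using h1, fun x hx y hy => ?_⟩
  have hy' : -y ∈ pts B := by
    have h3 := hB.2.2.2 _ hy
    have e : (fun i => (((-y) i : ℤ) : ℝ)) = -(fun i => ((y i : ℤ) : ℝ)) := by
      ext i; simp
    show (fun i => (((-y) i : ℤ) : ℝ)) ∈ B
    rw [e]; exact h3
  have h4 := sum_mem_pts hB 2 ![x, -y] (by
    intro j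
    fin_cases j
    · exact hx
    · exact hy')
  rw [Fin.sum_univ_two] at h4
  have h5 : x - y ∈ pts (((2 : ℕ) : ℝ) • B) := by
    have e : x - y = ![x, -y] 0 + ![x, -y] 1 := by
      simp [sub_eq_add_neg]
    rw [e]; exact h4
  obtain ⟨w, hw, hz⟩ := h2 _ h5
  exact ⟨w, hw, x - y - w, hz, by abel⟩

end Pool.Agent.P8H91.PV
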