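import Mathlib

/-!
# The choice of the parameters
-/

set_option autoImplicit false

namespace Pool.Agent.P8H91.PV

/-- `log s ≤ s` in the form needed below -/
lemma F_bound {s κ' : ℝ} (hs : 1 ≤ s) (hκ' : 1 ≤ κ') {J : ℕ}
    (hJ : (2 : ℝ) ^ J ≤ 294912 * (6 * s) * κ') :
    (1 + 1 / (6 * s)) ^ (2 * (2 * J) + 2) ≤ Real.exp 16 * κ' ^ (1 / s) := by
  have hs0 : 0 < s := by linarith
  have h1 : (1 + 1 / (6 * s)) ^ (2 * (2 * J) + 2) ≤
      Real.exp ((2 * (2 * J) + 2 : ℕ) * (1 / (6 * s))) := by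
    rw [Real.exp_nat_mul]
    apply pow_le_pow_left₀ (by positivity)
    have := Real.add_one_le_exp (1 / (6 * s))
    linarith
  refine h1.trans ?_
  rw [Real.rpow_def_of_pos (by linarith), ← Real.exp_add]
  apply Real.exp_le_exp.2
  have hlJ : (J : ℝ) * Real.log 2 ≤ Real.log 1769472 + Real.log s + Real.log κ' := by
    have h2 := Real.log_le_log (by positivity) hJ
    rw [Real.log_pow] at h2
    have e : (294912 : ℝ) * (6 * s) * κ' = 1769472 * s * κ' := by ring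
    rw [e, Real.log_mul (by positivity) (by linarith), Real.log_mul (by norm_num) (by linarith)]
      at h2
    exact h2
  have hlog : Real.log 1769472 ≤ 15 := by
    have h2 : (1769472 : ℝ) ≤ Real.exp 15 := by
      have h3 : (2.7 : ℝ) ≤ Real.exp 1 := by
        have := Real.exp_one_gt_d9
        linarith
      have h4 : Real.exp 15 = Real.exp 1 ^ 15 := by
        rw [← Real.exp_nat_mul]; norm_num
      rw [h4]
      calc (1769472 : ℝ) ≤ 2.7 ^ 15 := by norm_num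
        _ ≤ _ := pow_le_pow_left₀ (by norm_num) h3 15
    calc Real.log 1769472 ≤ Real.log (Real.exp 15) := Real.log_le_log (by norm_num) h2
      _ = 15 := Real.log_exp 15
  have hlogs : Real.log s ≤ s - 1 := Real.log_le_sub_one_of_pos hs0
  have hlogs0 : 0 ≤ Real.log s := Real.log_nonneg hs
  have hlogκ : 0 ≤ Real.log κ' := Real.log_nonneg hκ'
  have hl2 : 0.6931 < Real.log 2 := by
    have := Real.log_two_gt_d9
    linarith
  have hJ0 : (0 : ℝ) ≤ J := Nat.cast_nonneg J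
  push_cast
  have e1 : (2 * (2 * (J : ℝ)) + 2) * (1 / (6 * s)) = (2 / 3 * J + 1 / 3) / s := by
    field_simp; ring
  rw [e1, div_le_iff₀ hs0]
  have e2 : (16 + Real.log κ' * (1 / s)) * s = 16 * s + Real.log κ' := by
    field_simp
  rw [e2]
  nlinarith

lemma exp3 : (8 : ℝ) ≤ Real.exp 3 := by
  have h3 : (2.7 : ℝ) ≤ Real.exp 1 := by
    have := Real.exp_one_gt_d9
    linarith
  have h4 : Real.exp 3 = Real.exp 1 ^ 3 := by
    rw [← Real.exp_nat_mul]; norm_num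
  rw [h4]
  calc (8 : ℝ) ≤ 2.7 ^ 3 := by norm_num
    _ ≤ _ := pow_le_pow_left₀ (by norm_num) h3 3

lemma pow_bound {κ l s : ℝ} (hs : 1 ≤ s) (hκ0 : 0 ≤ κ) (hl : 0 ≤ l) (hκl : 1 + κ ≤ 2 * (1 + l)) :
    (1 + κ) * (1 + κ) ^ (1 / s) ≤ 4 * (1 + l) ^ (1 + 1 / s) := by
  have hs0 : 0 < s := by linarith
  have e1 : (1 + κ) * (1 + κ) ^ (1 / s) = (1 + κ) ^ (1 + 1 / s) := by
    rw [Real.rpow_add (by linarith), Real.rpow_one]
  rw [e1]
  have h1s : 1 / s ≤ 1 := by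
    rw [div_le_one hs0]; exact hs
  have h1s0 : 0 ≤ 1 / s := by positivity
  have h2 : (0 : ℝ) ≤ (1 + l) ^ (1 + 1 / s) := Real.rpow_nonneg (by linarith) _
  have h3 : (2 : ℝ) ^ (1 + 1 / s) ≤ 4 := by
    calc (2 : ℝ) ^ (1 + 1 / s) ≤ 2 ^ (2 : ℝ) :=
          Real.rpow_le_rpow_of_exponent_le (by norm_num) (by linarith)
      _ = 4 := by norm_num
  calc (1 + κ) ^ (1 + 1 / s) ≤ (2 * (1 + l)) ^ (1 + 1 / s) :=
        Real.rpow_le_rpow (by linarith) hκl (by linarith)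
    _ = 2 ^ (1 + 1 / s) * (1 + l) ^ (1 + 1 / s) := Real.mul_rpow (by norm_num) (by linarith)
    _ ≤ 4 * (1 + l) ^ (1 + 1 / s) := mul_le_mul_of_nonneg_right h3 h2

lemma vol_bound {κ l s F g : ℝ} (hs : 1 ≤ s) (hκ0 : 0 ≤ κ) (hκ : κ ≤ 1 + l) (hl : 0 ≤ l)
    (hg : 1 ≤ g) (hF : F ≤ Real.exp 16 * (g * (1 + κ) ^ (1 / s))) :
    8 * Real.exp (2 * (2 * (6 * s) * κ * F) + 2 * l + 2 * (2 * (6 * s) * κ)) ≤
      Real.exp ((96 * Real.exp 16 + 200) * s * (g * (1 + l) ^ (1 + 1 / s))) := by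
  have hs0 : 0 < s := by linarith
  have hpow0 := pow_bound (l := l) hs hκ0 hl (by linarith)
  obtain ⟨Z₀, hZ₀⟩ : ∃ Z : ℝ, Z = (1 + l) ^ (1 + 1 / s) := ⟨_, rfl⟩
  obtain ⟨Y₀, hY₀⟩ : ∃ Y : ℝ, Y = (1 + κ) ^ (1 / s) := ⟨_, rfl⟩
  obtain ⟨E, hE⟩ : ∃ E : ℝ, E = Real.exp 16 := ⟨_, rfl⟩
  have hE0 : 0 < E := by rw [hE]; exact Real.exp_pos _
  have hY₀0 : 0 ≤ Y₀ := by rw [hY₀]; exact Real.rpow_nonneg (by linarith) _
  have hZ₀1 : 1 + l ≤ Z₀ := by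
    have h1s0 : 0 ≤ 1 / s := by positivity
    rw [hZ₀]
    calc 1 + l = (1 + l) ^ (1 : ℝ) := (Real.rpow_one _).symm
      _ ≤ _ := Real.rpow_le_rpow_of_exponent_le (by linarith) (by linarith)
  rw [← hZ₀, ← hY₀] at hpow0
  rw [← hY₀, ← hE] at hF
  rw [← hZ₀, ← hE]
  obtain ⟨Y, hY⟩ : ∃ Y : ℝ, Y = g * Y₀ := ⟨_, rfl⟩
  obtain ⟨Z, hZ⟩ : ∃ Z : ℝ, Z = g * Z₀ := ⟨_, rfl⟩
  rw [← hY] at hF
  rw [← hZ]
  have hY0 : 0 ≤ Y := by rw [hY]; positivity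
  have hpow : (1 + κ) * Y ≤ 4 * Z := by
    rw [hY, hZ]
    have := mul_le_mul_of_nonneg_left hpow0 (by linarith : (0 : ℝ) ≤ g)
    linarith
  have hZ1 : 1 + l ≤ Z := by
    rw [hZ]
    have : 1 * Z₀ ≤ g * Z₀ := mul_le_mul_of_nonneg_right hg (by linarith)
    linarith
  have hsκ : 0 ≤ 24 * s * κ := by positivity
  have h1 : 24 * s * κ * F ≤ 24 * s * κ * (E * Y) := mul_le_mul_of_nonneg_left hF hsκ
  have h2 : 24 * E * s * (κ * Y) ≤ 24 * E * s * ((1 + κ) * Y) :=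
    mul_le_mul_of_nonneg_left (mul_le_mul_of_nonneg_right (by linarith) hY0) (by positivity)
  have h3 : 24 * E * s * ((1 + κ) * Y) ≤ 24 * E * s * (4 * Z) :=
    mul_le_mul_of_nonneg_left hpow (by positivity)
  have h4 : s * (1 + l) ≤ s * Z := mul_le_mul_of_nonneg_left hZ1 hs0.le
  have h5 : 1 * (1 + l) ≤ s * (1 + l) := mul_le_mul_of_nonneg_right hs (by linarith)
  have h6 : s * κ ≤ s * (1 + l) := mul_le_mul_of_nonneg_left hκ hs0.le
  have key : 3 + (2 * (2 * (6 * s) * κ * F) + 2 * l + 2 * (2 * (6 * s) * κ)) ≤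
      (96 * E + 200) * s * Z := by
    have e1 : 2 * (2 * (6 * s) * κ * F) = 24 * s * κ * F := by ring
    have e2 : 24 * s * κ * (E * Y) = 24 * E * s * (κ * Y) := by ring
    have e3 : 24 * E * s * (4 * Z) = 96 * E * (s * Z) := by ring
    have e4 : (96 * E + 200) * s * Z = 96 * E * (s * Z) + 200 * (s * Z) := by ring
    have e5 : 2 * (2 * (6 * s) * κ) = 24 * (s * κ) := by ring
    rw [e1, e4, e5]
    rw [e2] at h1
    rw [e3] at h3
    linarith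
  calc 8 * Real.exp (2 * (2 * (6 * s) * κ * F) + 2 * l + 2 * (2 * (6 * s) * κ))
      ≤ Real.exp 3 * Real.exp (2 * (2 * (6 * s) * κ * F) + 2 * l + 2 * (2 * (6 * s) * κ)) :=
        mul_le_mul_of_nonneg_right exp3 (Real.exp_pos _).le
    _ = Real.exp (3 + (2 * (2 * (6 * s) * κ * F) + 2 * l + 2 * (2 * (6 * s) * κ))) := by
        rw [← Real.exp_add]
    _ ≤ _ := Real.exp_le_exp.2 key

lemma tail_bound {κ s l u W : ℝ} {J e : ℕ} (hs : 1 ≤ s) (hκ0 : 0 ≤ κ) (hl : l ≤ κ)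
    (hWJ : W = 2 ^ J) (hWge : 884736 * (s * (1 + κ)) ≤ W) (hu : u ^ e ≤ 2 * W) :
    (1 / 4 : ℝ) ^ (2 ^ (2 * J)) ≤ Real.exp (-(2 * (2 * (6 * s) * κ * u ^ e) + 2 * l +
      2 * (2 * (6 * s) * κ))) / 4 := by
  have hs0 : 0 < s := by linarith
  have hW0 : 0 < W := by rw [hWJ]; positivity
  obtain ⟨b, hb⟩ : ∃ b : ℝ, b = 2 * (6 * s) * κ * u ^ e := ⟨_, rfl⟩
  have h1 : (1 / 4 : ℝ) ^ (2 ^ (2 * J)) = Real.exp (-((2 : ℝ) ^ (2 * J) * Real.log 4)) := by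
    rw [← Real.exp_log (show (0 : ℝ) < 1 / 4 by norm_num), ← Real.exp_nat_mul, one_div,
      Real.log_inv]
    congr 1
    push_cast
    ring
  rw [← hb]
  have h2 : Real.exp (-(2 * b + 2 * l + 2 * (2 * (6 * s) * κ))) / 4 =
      Real.exp (-(2 * b + 2 * l + 2 * (2 * (6 * s) * κ)) - Real.log 4) := by
    rw [Real.exp_sub, Real.exp_log (by norm_num)]
  rw [h1, h2]
  apply Real.exp_le_exp.2
  have hl2 : 0.69 < Real.log 2 := by
    have := Real.log_two_gt_d9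
    linarith
  have hl2' : Real.log 2 < 0.7 := by
    have := Real.log_two_lt_d9
    linarith
  have h4 : Real.log 4 = 2 * Real.log 2 := by
    rw [show (4 : ℝ) = 2 ^ 2 by norm_num, Real.log_pow]
    norm_num
  have h3 : (2 : ℝ) ^ (2 * J) = W * W := by rw [hWJ, ← pow_add]; congr 1; ring
  rw [h3]
  have h5 : b ≤ 24 * (s * κ) * W := by
    rw [hb]
    calc 2 * (6 * s) * κ * u ^ e ≤ 2 * (6 * s) * κ * (2 * W) :=
          mul_le_mul_of_nonneg_left hu (by positivity)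
      _ = 24 * (s * κ) * W := by ring
  obtain ⟨x, hx⟩ : ∃ x : ℝ, x = s * (1 + κ) := ⟨_, rfl⟩
  have hx1 : s * κ ≤ x := by
    rw [hx]; exact mul_le_mul_of_nonneg_left (by linarith) hs0.le
  have hx2 : 1 + κ ≤ x := by
    have : 1 * (1 + κ) ≤ s * (1 + κ) := mul_le_mul_of_nonneg_right hs (by linarith)
    rw [hx]; linarith
  rw [← hx] at hWge
  have hx3 : 1 ≤ x := by linarith
  have hW1' : 1 ≤ W := by linarith
  have h5' : b ≤ 24 * x * W :=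
    h5.trans (mul_le_mul_of_nonneg_right (by linarith) hW0.le)
  have h8 : x ≤ x * W := le_mul_of_one_le_right (by linarith) hW1'
  have h9 : 884736 * x * W ≤ W * W := mul_le_mul_of_nonneg_right hWge hW0.le
  have h10 : W * W ≤ W * W * Real.log 4 := le_mul_of_one_le_right (by positivity) (by linarith)
  have e5 : 2 * (2 * (6 * s) * κ) = 24 * (s * κ) := by ring
  rw [e5]
  linarith

lemma rad_bound {κ s u W k : ℝ} {J e : ℕ} (hs : 1 ≤ s) (hκ0 : 0 ≤ κ) (hk : 1 ≤ k)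
    (hWJ : W = 2 ^ J) (hWge : 884736 * (k ^ 2 * (s * (1 + κ))) ≤ W) (hu : u ^ e ≤ 2 * W) :
    4 * Real.sqrt (2 * (6 * s) * κ * u ^ e / 2 ^ (2 * J)) ≤ 1 / (48 * k) := by
  have hs0 : 0 < s := by linarith
  have hW0 : 0 < W := by rw [hWJ]; positivity
  have hk0 : 0 < k := by linarith
  have hx1 : s * κ ≤ s * (1 + κ) := mul_le_mul_of_nonneg_left (by linarith) hs0.le
  have hx2 : k ^ 2 * (s * κ) ≤ k ^ 2 * (s * (1 + κ)) :=
    mul_le_mul_of_nonneg_left hx1 (by positivity)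
  have h1 : 2 * (6 * s) * κ * u ^ e / 2 ^ (2 * J) ≤ 1 / (36864 * k ^ 2) := by
    rw [div_le_iff₀ (by positivity)]
    have h3 : (2 : ℝ) ^ (2 * J) = W * W := by rw [hWJ, ← pow_add]; congr 1; ring
    rw [h3]
    have h4 : s * κ ≤ 1 / (884736 * k ^ 2) * W := by
      rw [div_mul_eq_mul_div, one_mul, le_div_iff₀ (by positivity)]
      linarith
    calc 2 * (6 * s) * κ * u ^ e ≤ 2 * (6 * s) * κ * (2 * W) :=
          mul_le_mul_of_nonneg_left hu (by positivity)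
      _ = 24 * (s * κ) * W := by ring
      _ ≤ 24 * (1 / (884736 * k ^ 2) * W) * W :=
          mul_le_mul_of_nonneg_right (by linarith) hW0.le
      _ = _ := by field_simp; ring
  have h2 : Real.sqrt (2 * (6 * s) * κ * u ^ e / 2 ^ (2 * J)) ≤ 1 / (192 * k) := by
    rw [show (1 : ℝ) / (192 * k) = Real.sqrt (1 / (36864 * k ^ 2)) by
      rw [show (1 : ℝ) / (36864 * k ^ 2) = (1 / (192 * k)) ^ 2 by field_simp; norm_num,
        Real.sqrt_sq (by positivity)]]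
    exact Real.sqrt_le_sqrt h1
  calc 4 * Real.sqrt (2 * (6 * s) * κ * u ^ e / 2 ^ (2 * J)) ≤ 4 * (1 / (192 * k)) := by linarith
    _ = 1 / (48 * k) := by field_simp; norm_num

lemma pow_u {s : ℝ} {J : ℕ} (hs : 1 ≤ s) :
    (1 + 1 / (6 * s)) ^ (2 * (2 * J) + 2) ≤ 2 * (2 : ℝ) ^ J := by
  obtain ⟨u, hu⟩ : ∃ u : ℝ, u = 1 + 1 / (6 * s) := ⟨_, rfl⟩
  have hs0 : 0 < s := by linarith
  rw [← hu]
  have hu0 : 0 ≤ u := by rw [hu]; positivity
  have hu2 : u ≤ 7 / 6 := by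
    have : 1 / (6 * s) ≤ 1 / 6 := by
      apply one_div_le_one_div_of_le (by norm_num)
      linarith
    linarith
  have h1 : u ^ 4 ≤ 2 := by
    calc u ^ 4 ≤ (7 / 6) ^ 4 := pow_le_pow_left₀ hu0 hu2 4
      _ ≤ 2 := by norm_num
  have h2 : u ^ 2 ≤ 2 := by
    calc u ^ 2 ≤ (7 / 6) ^ 2 := pow_le_pow_left₀ hu0 hu2 2
      _ ≤ 2 := by norm_num
  calc u ^ (2 * (2 * J) + 2) = (u ^ 4) ^ J * u ^ 2 := by rw [← pow_mul, ← pow_add]; congr 1; ring
    _ ≤ 2 ^ J * 2 := by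
        apply mul_le_mul (pow_le_pow_left₀ (by positivity) h1 J) h2 (by positivity)
          (by positivity)
    _ = 2 * 2 ^ J := by ring

lemma cover_bound {l s K' : ℝ} (hl : 0 ≤ l) (hs : 1 ≤ s) (hK' : 0 < K')
    (h : Real.log K' ≤ 50 * s * (1 + l)) :
    480 * Real.log K' + 1 ≤ 30000 * s * (1 + l) ∧
      K' * K' ^ 185 ≤ Real.exp (10000 * s * (1 + l)) := by
  have h0 : 1 ≤ s * (1 + l) := by nlinarith
  constructor
  · nlinarith
  · have h1 : K' * K' ^ 185 = Real.exp ((186 : ℕ) * Real.log K') := by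
      rw [Real.exp_nat_mul, Real.exp_log hK']
      exact (pow_succ' K' 185).symm
    rw [h1]
    apply Real.exp_le_exp.2
    push_cast
    nlinarith

lemma steps_bound {z W : ℝ} {J : ℕ} (hW : W = 2 ^ J) (hWz : W ≤ 3538944 * z) :
    ((1 + 2 ^ (2 * J) * (2 ^ (2 * J) * (1 + 1)) : ℕ) : ℝ) ≤ 10 ^ 27 * z ^ 4 := by
  have hW1 : 1 ≤ W := by rw [hW]; exact one_le_pow₀ (by norm_num)
  have e : ((1 + 2 ^ (2 * J) * (2 ^ (2 * J) * (1 + 1)) : ℕ) : ℝ) = 1 + 2 * W ^ 4 := by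
    have e1 : (2 : ℝ) ^ (2 * J) = W * W := by rw [hW, ← pow_add]; congr 1; ring
    push_cast
    rw [e1]
    ring
  rw [e]
  have h1 : 1 ≤ W ^ 4 := one_le_pow₀ hW1
  have h2 : W ^ 4 ≤ (3538944 * z) ^ 4 := pow_le_pow_left₀ (by linarith) hWz 4
  have h3 : (0 : ℝ) ≤ z := by linarith
  have h4 : 3 * (3538944 * z) ^ 4 ≤ 10 ^ 27 * z ^ 4 := by
    rw [mul_pow]
    have h5 : (0 : ℝ) ≤ z ^ 4 := by positivity
    nlinarith
  linarith

theorem params {K s : ℝ} {k : ℕ} (hK : 1 ≤ K) (hs : 1 ≤ s) (hk : 1 ≤ k) :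
    ∃ (j : ℕ) (κ b D ε K' : ℝ), κ = Real.log (2 * K) ∧
      b = 2 * (6 * s) * κ * (1 + 1 / (6 * s)) ^ (2 * j + 2) ∧ D = 2 * (6 * s) * κ ∧
      ε = 2 * (6 * s) * κ * (1 + 1 / (6 * s)) ^ (j + 2) / 2 ^ j ∧ 0 < ε ∧
      4 * Real.sqrt ε ≤ 1 / (48 * k) ∧
      (1 / 4 : ℝ) ^ (2 ^ j) ≤ Real.exp (-(2 * b + 2 * Real.log K + 2 * D)) / 4 ∧
      K' = K * Real.exp (2 * D + 1) ∧
      480 * Real.log K' + 1 ≤ 30000 * s * (1 + Real.log K) ∧
      8 * Real.exp (2 * b + 2 * Real.log K + 2 * D) ≤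
        Real.exp ((96 * Real.exp 16 + 200) * s *
          ((k : ℝ) ^ (2 / s) * (1 + Real.log K) ^ (1 + 1 / s))) ∧
      K' * K' ^ 185 ≤ Real.exp (10000 * s * (1 + Real.log K)) ∧
      ((1 + 2 ^ j * (2 ^ j * (1 + 1)) : ℕ) : ℝ) ≤
        10 ^ 27 * ((k : ℝ) ^ 2 * (s * (1 + Real.log K))) ^ 4 := by
  have hs0 : 0 < s := by linarith
  have hk1 : (1 : ℝ) ≤ k := by exact_mod_cast hk
  have hk0 : (0 : ℝ) < k := by linarith
  have hk2 : (1 : ℝ) ≤ (k : ℝ) ^ 2 := one_le_pow₀ hk1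
  have hlK : 0 ≤ Real.log K := Real.log_nonneg hK
  have hl2 : 0.69 < Real.log 2 := by
    have := Real.log_two_gt_d9
    linarith
  have hl2' : Real.log 2 < 0.7 := by
    have := Real.log_two_lt_d9
    linarith
  obtain ⟨κ, hκ⟩ : ∃ κ : ℝ, κ = Real.log (2 * K) := ⟨_, rfl⟩
  have hκe : κ = Real.log 2 + Real.log K := by
    rw [hκ]; exact Real.log_mul (by norm_num) (by linarith)
  have hκ0 : 0 < κ := by linarith
  have hsκ1 : 1 ≤ s * (1 + κ) := by nlinarith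
  have hksκ : s * (1 + κ) ≤ (k : ℝ) ^ 2 * (s * (1 + κ)) :=
    le_mul_of_one_le_left (by linarith) hk2
  obtain ⟨x, hx⟩ : ∃ x : ℝ, x = 147456 * (6 * s) * ((k : ℝ) ^ 2 * (1 + κ)) := ⟨_, rfl⟩
  have hxe : x = 884736 * ((k : ℝ) ^ 2 * (s * (1 + κ))) := by rw [hx]; ring
  have hx1 : 1 ≤ x := by
    rw [hxe]
    linarith
  obtain ⟨n, hn1, hn2⟩ := exists_nat_pow_near hx1 (one_lt_two : (1 : ℝ) < 2)
  obtain ⟨J, hJ⟩ : ∃ J : ℕ, J = n + 1 := ⟨_, rfl⟩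
  have hW1 : x ≤ 2 ^ J := by rw [hJ]; exact hn2.le
  have hW2 : (2 : ℝ) ^ J ≤ 2 * x := by rw [hJ, pow_succ]; linarith
  have hF1 := pow_u (J := J) hs
  have hF2 : (1 + 1 / (6 * s)) ^ (2 * (2 * J) + 2) ≤
      Real.exp 16 * ((k : ℝ) ^ (2 / s) * (1 + κ) ^ (1 / s)) := by
    have h1 : (1 : ℝ) ≤ (k : ℝ) ^ 2 * (1 + κ) := by
      have : (1 : ℝ) * 1 ≤ (k : ℝ) ^ 2 * (1 + κ) :=
        mul_le_mul hk2 (by linarith) (by norm_num) (by positivity)
      linarith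
    have h2 : (1 + 1 / (6 * s)) ^ (2 * (2 * J) + 2) ≤
        Real.exp 16 * ((k : ℝ) ^ 2 * (1 + κ)) ^ (1 / s) := by
      apply F_bound hs h1
      refine hW2.trans (le_of_eq ?_)
      rw [hx]; ring
    refine h2.trans (le_of_eq ?_)
    rw [Real.mul_rpow (by positivity) (by linarith), ← Real.rpow_natCast, ← Real.rpow_mul hk0.le]
    congr 3
    push_cast
    ring
  have hu1 : 1 ≤ 1 + 1 / (6 * s) := by
    have : 0 ≤ 1 / (6 * s) := by positivity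
    linarith
  have hF3 : (1 + 1 / (6 * s)) ^ (2 * J + 2) ≤ 2 * (2 : ℝ) ^ J :=
    (pow_le_pow_right₀ hu1 (by omega)).trans hF1
  have hWge : 884736 * ((k : ℝ) ^ 2 * (s * (1 + κ))) ≤ (2 : ℝ) ^ J := by
    rw [← hxe]; exact hW1
  have hWge' : 884736 * (s * (1 + κ)) ≤ (2 : ℝ) ^ J := by linarith
  have hK'0 : 0 < K * Real.exp (2 * (2 * (6 * s) * κ) + 1) := by
    have := Real.exp_pos (2 * (2 * (6 * s) * κ) + 1)
    have : 0 < K := by linarith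
    positivity
  have hlogK' : Real.log (K * Real.exp (2 * (2 * (6 * s) * κ) + 1)) ≤
      50 * s * (1 + Real.log K) := by
    rw [Real.log_mul (by linarith) (Real.exp_pos _).ne', Real.log_exp, hκe]
    have h1 : 0 ≤ s * Real.log K := by positivity
    have h2 : 1 * Real.log K ≤ s * Real.log K := mul_le_mul_of_nonneg_right hs hlK
    have h3 : s * Real.log 2 ≤ s * 0.7 := mul_le_mul_of_nonneg_left hl2'.le hs0.le
    nlinarith
  obtain ⟨c1, c2⟩ := cover_bound hlK hs hK'0 hlogK'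
  refine ⟨2 * J, κ, _, _, _, _, hκ, rfl, rfl, rfl, ?_, ?_, ?_, rfl, c1, ?_, c2, ?_⟩
  · have : 0 < 1 + 1 / (6 * s) := by linarith
    positivity
  · exact rad_bound hs hκ0.le hk1 rfl hWge hF3
  · exact tail_bound hs hκ0.le (by linarith) rfl hWge' hF1
  · exact vol_bound hs hκ0.le (by linarith) hlK (Real.one_le_rpow hk1 (by positivity)) hF2
  · apply steps_bound rfl
    have h1 : s * (1 + κ) ≤ s * (2 * (1 + Real.log K)) :=
      mul_le_mul_of_nonneg_left (by linarith) hs0.le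
    have h2 : (k : ℝ) ^ 2 * (s * (1 + κ)) ≤ (k : ℝ) ^ 2 * (s * (2 * (1 + Real.log K))) :=
      mul_le_mul_of_nonneg_left h1 (by positivity)
    have h3 : (k : ℝ) ^ 2 * (s * (2 * (1 + Real.log K))) =
        2 * ((k : ℝ) ^ 2 * (s * (1 + Real.log K))) := by ring
    linarith

end Pool.Agent.P8H91.PV
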