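import Pool.Agent.P8H91.PV.Str
import Pool.Agent.P8H91.PV.Num
import Pool.Agent.P8H91.PV.Lat2

/-!
# Models of sets with small doubling, and the reduction of the polynomial Freiman-Ruzsa conjecture
-/

set_option autoImplicit false

namespace Pool.Agent.P8H91.PV

open Finset Pool.Agent.P8H91.GR N173.BR
open scoped Pointwise

/-- `m A`, the sums of `m` elements of `A`. -/
def sums (A : Finset ℤ) (m : ℕ) : Finset ℤ :=
  (Fintype.piFinset fun _ : Fin m => A).image fun f => ∑ i, f i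

/-- The constant. -/
noncomputable def c0 : ℝ := 10 ^ 27 + (96 * Real.exp 16 + 200)

lemma c0_ge : 10 ^ 27 ≤ c0 := by
  unfold c0
  have := Real.exp_pos 16
  linarith

theorem part_one : ∃ C : ℝ, 1 ≤ C ∧ ∀ (s : ℝ) (k : ℕ) (A : Finset ℤ) (K : ℝ), 1 ≤ s → 1 ≤ k →
    A.Nonempty → 1 ≤ K → ((A + A).card : ℝ) ≤ K * A.card →
    ∃ (d h : ℕ) (B : Set (Fin d → ℝ)) (φ : (Fin d → ℤ) →+ ℤ) (A' X : Finset ℤ),
      (d : ℝ) ≤ C * s * (1 + Real.log K) ∧ Body B ∧ Set.InjOn φ (pts ((k : ℝ) • B)) ∧ A' ⊆ A ∧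
      (A.card : ℝ) ≤ Real.exp (C * s * (1 + Real.log K)) * A'.card ∧
      ((pts ((k : ℝ) • B)).ncard : ℝ) ≤
        Real.exp (C * s * ((k : ℝ) ^ (2 / s) * (1 + Real.log K) ^ (1 + 1 / s))) * A'.card ∧
      (∀ u ∈ A', ∀ v ∈ A', ∃ c ∈ pts B, u - v = φ c) ∧
      (X.card : ℝ) ≤ Real.exp (C * s * (1 + Real.log K)) ∧
      (∀ a ∈ A, ∃ x ∈ X, ∃ u ∈ A', ∃ v ∈ A', a = x + (u - v)) ∧
      (h : ℝ) ≤ C * ((k : ℝ) ^ 2 * (s * (1 + Real.log K))) ^ 4 ∧
      ∀ c ∈ pts ((k : ℝ) • B), ∃ u ∈ sums A h, ∃ v ∈ sums A h, φ c = u - v := by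
  have hc := c0_ge
  refine ⟨c0, by linarith, ?_⟩
  intro s k A K hs hk hA hK hAK
  obtain ⟨j, κ, b, D, ε, K', hκ, hb, hD, hε, hε0, hρ, h4, hK', g1, g2, g3, g4⟩ := params hK hs hk
  obtain ⟨d, B, φ, F, X, k1, k2, k3, k4, k5, k6, k7, k8, k9, k10, k11⟩ :=
    structure2 hA hAK hK (by linarith : 1 ≤ 6 * s) j k hk hκ hb hD hε hε0 hρ h4 hK'
  have hlK : 0 ≤ Real.log K := Real.log_nonneg hK
  have hk1 : (1 : ℝ) ≤ k := by exact_mod_cast hk
  obtain ⟨l, hl⟩ : ∃ l : ℝ, l = 1 + Real.log K := ⟨_, rfl⟩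
  rw [← hl] at g1 g2 g3 g4 ⊢
  have hl1 : 1 ≤ l := by linarith
  have hs0 : 0 < s := by linarith
  have hsl : 0 ≤ s * l := by positivity
  have hnum : Real.exp (10000 * s * l) ≤ Real.exp (c0 * s * l) := by
    apply Real.exp_le_exp.2
    have : 10000 * (s * l) ≤ c0 * (s * l) := mul_le_mul_of_nonneg_right (by linarith) hsl
    linarith
  refine ⟨d, _, B, φ, F, X, ?_, k2, k3, k6, ?_, ?_, k9, (k5.trans g3).trans hnum, k10,
    g4.trans ?_, ?_⟩
  · refine (k1.trans g1).trans ?_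
    have : 30000 * (s * l) ≤ c0 * (s * l) := mul_le_mul_of_nonneg_right (by linarith) hsl
    linarith
  · exact k8.trans (mul_le_mul_of_nonneg_right (g3.trans hnum) (Nat.cast_nonneg _))
  · obtain ⟨Z, hZ⟩ : ∃ Z : ℝ, Z = (k : ℝ) ^ (2 / s) * l ^ (1 + 1 / s) := ⟨_, rfl⟩
    rw [← hZ] at g2 ⊢
    have hlZ : l ≤ Z := by
      have h1s0 : 0 ≤ 1 / s := by positivity
      have h2s0 : 0 ≤ 2 / s := by positivity
      have h1 : l ≤ l ^ (1 + 1 / s) := by
        calc l = l ^ (1 : ℝ) := (Real.rpow_one _).symm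
          _ ≤ _ := Real.rpow_le_rpow_of_exponent_le hl1 (by linarith)
      have h2 : (1 : ℝ) ≤ (k : ℝ) ^ (2 / s) := Real.one_le_rpow hk1 h2s0
      rw [hZ]
      exact h1.trans (le_mul_of_one_le_left (by linarith) h2)
    have hslZ : s * l ≤ s * Z := mul_le_mul_of_nonneg_left hlZ hs0.le
    calc ((pts ((k : ℝ) • B)).ncard : ℝ) ≤
          Real.exp ((96 * Real.exp 16 + 200) * s * Z) * A.card :=
          k4.trans (mul_le_mul_of_nonneg_right g2 (Nat.cast_nonneg _))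
      _ ≤ Real.exp ((96 * Real.exp 16 + 200) * s * Z) * (Real.exp (10000 * s * l) * F.card) := by
          apply mul_le_mul_of_nonneg_left _ (Real.exp_pos _).le
          exact k8.trans (mul_le_mul_of_nonneg_right g3 (Nat.cast_nonneg _))
      _ = Real.exp ((96 * Real.exp 16 + 200) * s * Z + 10000 * s * l) * F.card := by
          rw [Real.exp_add]; ring
      _ ≤ Real.exp (c0 * s * Z) * F.card := by
          apply mul_le_mul_of_nonneg_right _ (Nat.cast_nonneg _)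
          apply Real.exp_le_exp.2
          have e : c0 * s * Z = (96 * Real.exp 16 + 200) * s * Z + 10 ^ 27 * (s * Z) := by
            unfold c0; ring
          rw [e]
          have : 0 ≤ s * Z := hsl.trans hslZ
          linarith
  · exact mul_le_mul_of_nonneg_right hc (by positivity)
  · intro c hc'
    obtain ⟨u, v, ⟨f, hf, hu⟩, ⟨g, hg, hv⟩, e⟩ := k11 c hc'
    exact ⟨u, mem_image.2 ⟨f, Fintype.mem_piFinset.2 hf, hu.symm⟩, v,
      mem_image.2 ⟨g, Fintype.mem_piFinset.2 hg, hv.symm⟩, e⟩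

lemma exp_poly {c K : ℝ} (hK : 1 ≤ K) :
    Real.exp (c * (1 + Real.log K)) ≤ Real.exp c * K ^ Real.exp c := by
  have hlK : 0 ≤ Real.log K := Real.log_nonneg hK
  rw [Real.rpow_def_of_pos (by linarith), ← Real.exp_add]
  apply Real.exp_le_exp.2
  have h1 : c ≤ Real.exp c := by
    have := Real.add_one_le_exp c
    linarith
  have h2 : c * Real.log K ≤ Real.exp c * Real.log K := mul_le_mul_of_nonneg_right h1 hlK
  linarith

theorem pts_mono {d : ℕ} {B : Set (Fin d → ℝ)} (hB : Body B) {t t' : ℝ} (ht : 0 < t)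
    (htt : t ≤ t') : pts (t • B) ⊆ pts (t' • B) := by
  intro c hc
  obtain ⟨b, hb, e⟩ := hc
  have ht' : 0 < t' := by linarith
  refine ⟨(t / t') • b, hB.1.smul_mem_of_zero_mem (body_zero hB) hb
    ⟨by positivity, (div_le_one ht').2 htt⟩, ?_⟩
  show t' • ((t / t') • b) = _
  rw [smul_smul, mul_div_cancel₀ _ ht'.ne']
  exact e

/-- The conclusion of the polynomial Freiman-Ruzsa conjecture for all the sets `A` with `P K A`. -/
def PFRFor (P : ℝ → Finset ℤ → Prop) : Prop :=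
  ∃ C : ℝ, 1 ≤ C ∧ ∀ (A : Finset ℤ) (K : ℝ), A.Nonempty → 1 ≤ K →
    ((A + A).card : ℝ) ≤ K * A.card → P K A →
    ∃ (d : ℕ) (B : Set (Fin d → ℝ)) (φ : (Fin d → ℤ) →+ ℤ) (T : Finset ℤ),
      (d : ℝ) ≤ C * (1 + Real.log K) ∧ Body B ∧ (pts B).ncard ≤ A.card ∧
      (T.card : ℝ) ≤ C * K ^ C ∧ ∀ a ∈ A, ∃ t ∈ T, ∃ c ∈ pts B, a = t + φ c

/-- `A` lies in a centred convex progression `φ (pts B)` of dimension at most `δ (1 + log K)`;
`φ` is injective on the integer points of `(1 + log K) ^ a B`, and their number is at most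
`exp (δ (1 + log K) ^ (1 + ε)) |A|`. -/
def DenseInProg (ε δ a K : ℝ) (A : Finset ℤ) : Prop :=
  ∃ (d : ℕ) (B : Set (Fin d → ℝ)) (φ : (Fin d → ℤ) →+ ℤ), (d : ℝ) ≤ δ * (1 + Real.log K) ∧
    Body B ∧ Set.InjOn φ (pts (((1 + Real.log K) ^ a) • B)) ∧
    ((pts (((1 + Real.log K) ^ a) • B)).ncard : ℝ) ≤
      Real.exp (δ * (1 + Real.log K) ^ (1 + ε)) * A.card ∧
    ∀ x ∈ A, ∃ c ∈ pts B, x = φ c

lemma card_translate_add (F : Finset ℤ) (f₀ : ℤ) :
    ((F.image fun x => x - f₀) + (F.image fun x => x - f₀)).card = (F + F).card := by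
  have h : (F.image fun x => x - f₀) + (F.image fun x => x - f₀) =
      (F + F).image fun x => x - 2 * f₀ := by
    ext z
    constructor
    · intro hz
      obtain ⟨a, ha, b, hb, rfl⟩ := Finset.mem_add.1 hz
      obtain ⟨a', ha', rfl⟩ := mem_image.1 ha
      obtain ⟨b', hb', rfl⟩ := mem_image.1 hb
      exact mem_image.2 ⟨a' + b', Finset.add_mem_add ha' hb', by ring⟩
    · intro hz
      obtain ⟨y, hy, rfl⟩ := mem_image.1 hz
      obtain ⟨a, ha, b, hb, rfl⟩ := Finset.mem_add.1 hy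
      exact Finset.mem_add.2 ⟨a - f₀, mem_image_of_mem _ ha, b - f₀, mem_image_of_mem _ hb,
        by ring⟩
  rw [h]
  apply Finset.card_image_of_injective
  intro x y hxy
  have : x - 2 * f₀ = y - 2 * f₀ := hxy
  linarith

/-- the exponent of the volume -/
lemma vol_exp {q M l s ε δ a k : ℝ} (hq : 1 ≤ q) (hM : 1 ≤ M) (hl : 1 ≤ l) (hs : 1 ≤ s)
    (hε : 0 < ε) (ha : 0 < a) (hsε : 1 + 2 * a ≤ ε * s)
    (hqM : q * (4 * 2 ^ ε) ≤ δ * M) (hk1 : 1 ≤ k) (hk : k ≤ 2 * (1 + M * l) ^ a) :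
    q * (k ^ (2 / s) * l ^ (1 + 1 / s)) ≤ δ * (1 + M * l) ^ (1 + ε) := by
  have hs0 : 0 < s := by linarith
  have hMl : 1 ≤ M * l := by nlinarith
  have hMl0 : 0 < M * l := by linarith
  have hM0 : 0 < M := by linarith
  have hl0 : 0 < l := by linarith
  have e1 : k ^ (2 / s) ≤ 4 * ((2 * M) ^ (2 * a / s) * l ^ (2 * a / s)) := by
    have e4 : (2 : ℝ) ^ (2 / s) ≤ 4 := by
      calc (2 : ℝ) ^ (2 / s) ≤ 2 ^ (2 : ℝ) := by
            apply Real.rpow_le_rpow_of_exponent_le (by norm_num)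
            rw [div_le_iff₀ hs0]
            linarith
        _ = 4 := by norm_num
    calc k ^ (2 / s) ≤ (2 * (1 + M * l) ^ a) ^ (2 / s) :=
          Real.rpow_le_rpow (by linarith) hk (by positivity)
      _ = 2 ^ (2 / s) * (1 + M * l) ^ (2 * a / s) := by
          rw [Real.mul_rpow (by norm_num) (Real.rpow_nonneg (by linarith) _),
            ← Real.rpow_mul (by linarith)]
          congr 2; ring
      _ ≤ 4 * (2 * M * l) ^ (2 * a / s) :=
          mul_le_mul e4 (Real.rpow_le_rpow (by linarith) (by nlinarith) (by positivity))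
            (Real.rpow_nonneg (by linarith) _) (by norm_num)
      _ = _ := by rw [Real.mul_rpow (by positivity) hl0.le]
  have hx1 : 2 * a / s ≤ ε := by
    rw [div_le_iff₀ hs0]; linarith
  have hx2 : 1 + 1 / s + 2 * a / s ≤ 1 + ε := by
    have : 1 / s + 2 * a / s = (1 + 2 * a) / s := by ring
    have h2 : (1 + 2 * a) / s ≤ ε := by rw [div_le_iff₀ hs0]; exact hsε
    linarith
  have e2 : (2 * M) ^ (2 * a / s) ≤ 2 ^ ε * M ^ ε := by
    rw [← Real.mul_rpow (by norm_num) hM0.le]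
    exact Real.rpow_le_rpow_of_exponent_le (by linarith) hx1
  have e3 : l ^ (2 * a / s) * l ^ (1 + 1 / s) ≤ l ^ (1 + ε) := by
    rw [← Real.rpow_add hl0]
    apply Real.rpow_le_rpow_of_exponent_le hl
    linarith
  have hMε : 0 ≤ M ^ ε := Real.rpow_nonneg hM0.le _
  have hlε : 0 ≤ l ^ (1 + ε) := Real.rpow_nonneg hl0.le _
  have hls : 0 ≤ l ^ (1 + 1 / s) := Real.rpow_nonneg hl0.le _
  have h2ε : 0 ≤ (2 : ℝ) ^ ε := Real.rpow_nonneg (by norm_num) _
  calc q * (k ^ (2 / s) * l ^ (1 + 1 / s))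
      ≤ q * ((4 * ((2 * M) ^ (2 * a / s) * l ^ (2 * a / s))) * l ^ (1 + 1 / s)) :=
        mul_le_mul_of_nonneg_left (mul_le_mul_of_nonneg_right e1 hls) (by linarith)
    _ = (q * 4) * ((2 * M) ^ (2 * a / s) * (l ^ (2 * a / s) * l ^ (1 + 1 / s))) := by ring
    _ ≤ (q * 4) * ((2 ^ ε * M ^ ε) * l ^ (1 + ε)) := by
        apply mul_le_mul_of_nonneg_left _ (by linarith)
        exact mul_le_mul e2 e3 (mul_nonneg (Real.rpow_nonneg hl0.le _) hls)
          (mul_nonneg h2ε hMε)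
    _ = (q * (4 * 2 ^ ε)) * (M ^ ε * l ^ (1 + ε)) := by ring
    _ ≤ (δ * M) * (M ^ ε * l ^ (1 + ε)) :=
        mul_le_mul_of_nonneg_right hqM (mul_nonneg hMε hlε)
    _ = δ * (M * l) ^ (1 + ε) := by
        rw [Real.mul_rpow hM0.le hl0.le, Real.rpow_add hM0, Real.rpow_one]; ring
    _ ≤ δ * (1 + M * l) ^ (1 + ε) := by
        have hδ : 0 ≤ δ := by
          by_contra hcon
          push Not at hcon
          have h3 : (0 : ℝ) < 2 ^ ε := Real.rpow_pos_of_pos (by norm_num) _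
          have h4 : 0 < q * (4 * 2 ^ ε) := mul_pos (by linarith) (by linarith)
          have h5 : δ * M ≤ 0 := mul_nonpos_of_nonpos_of_nonneg hcon.le hM0.le
          linarith
        exact mul_le_mul_of_nonneg_left (Real.rpow_le_rpow hMl0.le (by linarith) (by linarith)) hδ

theorem part_two (ε δ a : ℝ) (hε : 0 < ε) (hδ : 0 < δ) (ha : 0 < a)
    (H₁ : PFRFor (DenseInProg ε δ a)) : PFRFor fun _ _ => True := by
  classical
  obtain ⟨C₀, hC₀, H⟩ := part_one
  obtain ⟨C₁, hC₁, H₁⟩ := H₁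
  obtain ⟨s, hs⟩ : ∃ s : ℝ, s = max 1 ((1 + 2 * a) / ε) := ⟨_, rfl⟩
  have hs1 : 1 ≤ s := by rw [hs]; exact le_max_left _ _
  have hs2 : 1 + 2 * a ≤ ε * s := by
    have : (1 + 2 * a) / ε ≤ s := by rw [hs]; exact le_max_right _ _
    rw [div_le_iff₀ hε] at this
    linarith
  obtain ⟨q, hq⟩ : ∃ q : ℝ, q = C₀ * s := ⟨_, rfl⟩
  have hq1 : 1 ≤ q := by
    rw [hq]
    calc (1 : ℝ) = 1 * 1 := (mul_one _).symm
      _ ≤ C₀ * s := mul_le_mul hC₀ hs1 (by norm_num) (by linarith)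
  have h2ε : (1 : ℝ) ≤ 2 ^ ε := Real.one_le_rpow (by norm_num) hε.le
  have hqd : 0 < q * (4 * 2 ^ ε) / δ := by positivity
  -- the constants: `M` for the new doubling, `c` for the number of translates
  obtain ⟨M, hM⟩ : ∃ M : ℝ, M = 1 + q + q * (4 * 2 ^ ε) / δ := ⟨_, rfl⟩
  have hM1 : 1 ≤ M := by linarith
  have hMq : 1 + q ≤ M := by linarith
  have hqM : q * (4 * 2 ^ ε) ≤ δ * M := by
    have h1 : q * (4 * 2 ^ ε) / δ ≤ M := by linarith
    rw [div_le_iff₀ hδ] at h1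
    linarith
  have hqM' : q ≤ δ * M := by
    have : q * 1 ≤ q * (4 * 2 ^ ε) := mul_le_mul_of_nonneg_left (by linarith) (by linarith)
    linarith
  obtain ⟨c, hc⟩ : ∃ c : ℝ, c = q + 2 * C₁ + 2 * (C₁ * M) + 2 * (C₁ * (1 + M)) := ⟨_, rfl⟩
  have hCM : 0 ≤ C₁ * M := by positivity
  have hCM' : C₁ ≤ C₁ * M := le_mul_of_one_le_right (by linarith) hM1
  have hc0 : C₁ * (1 + M) ≤ c := by
    rw [hc]
    have : C₁ * (1 + M) = C₁ + C₁ * M := by ring
    linarith
  have hcle : c ≤ Real.exp c := by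
    have := Real.add_one_le_exp c
    linarith
  have hc1 : 0 ≤ c := by
    have : 0 ≤ C₁ * (1 + M) := by positivity
    linarith
  refine ⟨Real.exp c, Real.one_le_exp hc1, ?_⟩
  intro A K hA hK hAK _
  have hlK : 0 ≤ Real.log K := Real.log_nonneg hK
  obtain ⟨l, hl⟩ : ∃ l : ℝ, l = 1 + Real.log K := ⟨_, rfl⟩
  have hl1 : 1 ≤ l := by linarith
  have hMl0 : 0 ≤ M * l := by positivity
  obtain ⟨k₀, hk₀⟩ : ∃ k₀ : ℕ, k₀ = ⌈(1 + M * l) ^ a⌉₊ := ⟨_, rfl⟩
  have hpow1 : (1 : ℝ) ≤ (1 + M * l) ^ a := Real.one_le_rpow (by linarith) ha.le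
  have hk₀0 : (1 + M * l) ^ a ≤ k₀ := by
    rw [hk₀]; exact Nat.le_ceil _
  have hk₀1 : 1 ≤ k₀ := by
    have : (1 : ℝ) ≤ k₀ := hpow1.trans hk₀0
    exact_mod_cast this
  have hk₀2 : (k₀ : ℝ) ≤ 2 * (1 + M * l) ^ a := by
    have := Nat.ceil_lt_add_one (by linarith : (0 : ℝ) ≤ (1 + M * l) ^ a)
    rw [← hk₀] at this
    linarith
  obtain ⟨d, h, B, φ, F, X, h1, h2, h3, h4, h5, h6, h7, h8, h9, -, -⟩ :=
    H s k₀ A K hs1 hk₀1 hA hK hAK
  rw [← hl, ← hq] at h1 h5 h8 h6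
  have hvol := vol_exp hq1 hM1 hl1 hs1 hε ha hs2 hqM (by exact_mod_cast hk₀1) hk₀2
  have hFne : F.Nonempty := by
    rw [Finset.nonempty_iff_ne_empty]
    intro h
    rw [h] at h5
    simp only [card_empty, Nat.cast_zero, mul_zero] at h5
    have : (0 : ℝ) < A.card := by exact_mod_cast hA.card_pos
    linarith
  obtain ⟨f₀, hf₀⟩ := hFne
  set F' : Finset ℤ := F.image fun x => x - f₀ with hF'
  have hF'card : F'.card = F.card :=
    Finset.card_image_of_injective _ fun x y hxy => by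
      have : x - f₀ = y - f₀ := hxy
      linarith
  obtain ⟨K₁, hK₁⟩ : ∃ K₁ : ℝ, K₁ = Real.exp (M * l) := ⟨_, rfl⟩
  have hK₁1 : 1 ≤ K₁ := by rw [hK₁]; exact Real.one_le_exp hMl0
  have hlogK₁ : Real.log K₁ = M * l := by rw [hK₁, Real.log_exp]
  have hMql : (1 + q) * l ≤ M * l := mul_le_mul_of_nonneg_right hMq (by linarith)
  have hdoub : ((F' + F').card : ℝ) ≤ K₁ * F'.card := by
    rw [hF'card, hF', card_translate_add]
    have e1 : ((F + F).card : ℝ) ≤ (A + A).card := by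
      exact_mod_cast Finset.card_le_card (Finset.add_subset_add h4 h4)
    calc ((F + F).card : ℝ) ≤ K * A.card := e1.trans hAK
      _ ≤ K * (Real.exp (q * l) * F.card) := mul_le_mul_of_nonneg_left h5 (by linarith)
      _ = Real.exp (Real.log K + q * l) * F.card := by
          rw [Real.exp_add, Real.exp_log (by linarith)]; ring
      _ ≤ K₁ * F.card := by
          apply mul_le_mul_of_nonneg_right _ (Nat.cast_nonneg _)
          rw [hK₁]
          apply Real.exp_le_exp.2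
          have : (1 + q) * l = l + q * l := by ring
          linarith
  have hdense : DenseInProg ε δ a K₁ F' := by
    have hsub := pts_mono h2 (by linarith : 0 < (1 + M * l) ^ a) hk₀0
    refine ⟨d, B, φ, ?_, h2, ?_, ?_, ?_⟩
    · rw [hlogK₁]
      refine h1.trans ?_
      have e1 : q * l ≤ δ * M * l := mul_le_mul_of_nonneg_right hqM' (by linarith)
      have e2 : δ * (1 + M * l) = δ + δ * M * l := by ring
      linarith
    · rw [hlogK₁]
      exact h3.mono hsub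
    · rw [hF'card, hlogK₁]
      have e1 : (pts (((1 + M * l) ^ a) • B)).ncard ≤ (pts ((k₀ : ℝ) • B)).ncard :=
        Set.ncard_le_ncard hsub (pts_finite _ (h2.2.1.smul _).isBounded)
      have e2 : ((pts (((1 + M * l) ^ a) • B)).ncard : ℝ) ≤ (pts ((k₀ : ℝ) • B)).ncard := by
        exact_mod_cast e1
      exact (e2.trans h6).trans
        (mul_le_mul_of_nonneg_right (Real.exp_le_exp.2 hvol) (Nat.cast_nonneg _))
    · intro a ha
      obtain ⟨u, hu, rfl⟩ := mem_image.1 ha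
      exact h7 u hu f₀ hf₀
  obtain ⟨d', B', φ', T, g1, g2, g3, g4, g5⟩ :=
    H₁ F' K₁ ⟨_, mem_image_of_mem _ hf₀⟩ hK₁1 hdoub hdense
  obtain ⟨Y, hY1, hY2⟩ := diff_cover B' g2
  rw [hlogK₁] at g1
  have hMl : 1 + M * l ≤ (1 + M) * l := by
    have : (1 + M) * l = l + M * l := by ring
    linarith
  have hd' : (d' : ℝ) ≤ C₁ * (1 + M) * l := by
    refine g1.trans ?_
    rw [mul_assoc]
    exact mul_le_mul_of_nonneg_left hMl (by linarith)
  -- the number of translates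
  have hT : (T.card : ℝ) ≤ Real.exp ((C₁ + C₁ * M) * l) := by
    refine g4.trans ?_
    have e1 : K₁ ^ C₁ = Real.exp (C₁ * M * l) := by
      rw [Real.rpow_def_of_pos (by linarith), hlogK₁]
      congr 1; ring
    rw [e1]
    have e2 : C₁ ≤ Real.exp (C₁ * l) := by
      have e3 := Real.add_one_le_exp (C₁ * l)
      have e4 : C₁ ≤ C₁ * l := le_mul_of_one_le_right (by linarith) hl1
      linarith
    calc C₁ * Real.exp (C₁ * M * l) ≤ Real.exp (C₁ * l) * Real.exp (C₁ * M * l) :=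
          mul_le_mul_of_nonneg_right e2 (Real.exp_pos _).le
      _ = Real.exp ((C₁ + C₁ * M) * l) := by rw [← Real.exp_add]; congr 1; ring
  have hY : (Y.card : ℝ) ≤ Real.exp (2 * (C₁ * (1 + M)) * l) := by
    have e1 : (Y.card : ℝ) ≤ (5 : ℝ) ^ d' := by exact_mod_cast hY1
    have e2 : (5 : ℝ) ≤ Real.exp 2 := by
      have e3 : (2.7 : ℝ) ≤ Real.exp 1 := by
        have := Real.exp_one_gt_d9
        linarith
      have e4 : Real.exp 2 = Real.exp 1 ^ 2 := by rw [← Real.exp_nat_mul]; norm_num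
      rw [e4]
      calc (5 : ℝ) ≤ 2.7 ^ 2 := by norm_num
        _ ≤ _ := pow_le_pow_left₀ (by norm_num) e3 2
    calc (Y.card : ℝ) ≤ (5 : ℝ) ^ d' := e1
      _ ≤ Real.exp 2 ^ d' := pow_le_pow_left₀ (by norm_num) e2 _
      _ = Real.exp (d' * 2) := by rw [← Real.exp_nat_mul]
      _ ≤ _ := by
          apply Real.exp_le_exp.2
          linarith
  set W : Finset ℤ := X + ((T - T) + Y.image φ') with hW
  refine ⟨d', B', φ', W, ?_, g2, ?_, ?_, ?_⟩
  · rw [← hl]
    refine hd'.trans (mul_le_mul_of_nonneg_right (hc0.trans hcle) (by linarith))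
  · have : F.card ≤ A.card := Finset.card_le_card h4
    omega
  · have e1 : W.card ≤ X.card * ((T.card * T.card) * Y.card) := by
      refine Finset.card_add_le.trans (Nat.mul_le_mul_left _ ?_)
      refine Finset.card_add_le.trans (Nat.mul_le_mul ?_ Finset.card_image_le)
      exact Finset.card_sub_le
    have e2 : (W.card : ℝ) ≤ X.card * ((T.card * T.card) * Y.card) := by exact_mod_cast e1
    refine (e2.trans ?_).trans (exp_poly hK)
    rw [← hl]
    calc (X.card : ℝ) * ((T.card * T.card) * Y.card) ≤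
          Real.exp (q * l) * ((Real.exp ((C₁ + C₁ * M) * l) * Real.exp ((C₁ + C₁ * M) * l)) *
            Real.exp (2 * (C₁ * (1 + M)) * l)) := by
          refine mul_le_mul h8 ?_ (by positivity) (Real.exp_pos _).le
          refine mul_le_mul ?_ hY (Nat.cast_nonneg _) (by positivity)
          exact mul_le_mul hT hT (Nat.cast_nonneg _) (Real.exp_pos _).le
      _ = Real.exp (c * l) := by
          rw [← Real.exp_add, ← Real.exp_add, ← Real.exp_add, hc]
          congr 1; ring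
  · intro a ha
    obtain ⟨x, hx, u, hu, v, hv, rfl⟩ := h9 a ha
    obtain ⟨t, ht, y, hy, e1⟩ := g5 (u - f₀) (mem_image_of_mem _ hu)
    obtain ⟨t', ht', y', hy', e2⟩ := g5 (v - f₀) (mem_image_of_mem _ hv)
    obtain ⟨w, hw, z, hz, e3⟩ := hY2 y hy y' hy'
    refine ⟨x + ((t - t') + φ' w), ?_, z, hz, ?_⟩
    · exact Finset.add_mem_add hx (Finset.add_mem_add (Finset.sub_mem_sub ht ht')
        (mem_image_of_mem _ hw))
    · have e4 : φ' y - φ' y' = φ' w + φ' z := by rw [← map_sub, e3, map_add]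
      linarith

theorem part_two' (ε δ a : ℝ) (hε : 0 < ε) (hδ : 0 < δ) (ha : 0 < a) :
    PFRFor (DenseInProg ε δ a) ↔ PFRFor fun _ _ => True := by
  refine ⟨part_two ε δ a hε hδ ha, ?_⟩
  rintro ⟨C, hC, H⟩
  exact ⟨C, hC, fun A K hA hK hAK _ => H A K hA hK hAK trivial⟩

end Pool.Agent.P8H91.PV
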