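import Pool.Agent.H112R2.Cover
import Pool.Agent.P8H91.GR.Lat

/-!
# The section of a lattice body by a sublattice
-/

set_option autoImplicit false

namespace Pool.Agent.P8H91.PV

open Finset H112 Pool.Agent.P8H91.GR
open scoped Pointwise

/-- The real linear map of integer vectors `v i`. -/
noncomputable def rmap {d m : ℕ} (v : Fin d → Fin m → ℤ) : (Fin d → ℝ) →ₗ[ℝ] (Fin m → ℝ) :=
  Fintype.linearCombination ℝ (fun i => (algebraMap ℤ ℝ) ∘ v i)

lemma rmap_int {d m : ℕ} (v : Fin d → Fin m → ℤ) (c : Fin d → ℤ) :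
    rmap v (fun i => (c i : ℝ)) = fun k => ((∑ i, c i • v i) k : ℝ) := by
  funext k
  unfold rmap
  rw [Fintype.linearCombination_apply]
  simp

theorem sub_body {m : ℕ} (N : Seminorm ℝ (Fin m → ℝ)) (hN : ∀ x, N x = 0 → x = 0) {r : ℝ}
    (hr : 0 < r) (S : Finset (Fin m → ℤ)) :
    ∃ (d : ℕ) (θ : (Fin d → ℤ) →+ (Fin m → ℤ)) (B : Set (Fin d → ℝ)), d ≤ S.card ∧ Body B ∧
      Function.Injective θ ∧ (∀ c, c ∈ pts B ↔ θ c ∈ LL N r) ∧
      (∀ t : ℝ, 0 < t → ∀ c, c ∈ pts (t • B) ↔ θ c ∈ LL N (t * r)) ∧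
      (∀ x ∈ AddSubgroup.closure (S : Set (Fin m → ℤ)), ∃ c, θ c = x) := by
  classical
  set M : Submodule ℤ (Fin m → ℤ) := Submodule.span ℤ (S : Set (Fin m → ℤ)) with hM
  have : Module.Finite ℤ M := Module.Finite.span_of_finite ℤ S.finite_toSet
  have : Module.Free ℤ M := inferInstance
  set d := Module.finrank ℤ M with hd
  let b : Module.Basis (Fin d) ℤ M := Module.finBasis ℤ M
  set v : Fin d → Fin m → ℤ := fun i => (b i : Fin m → ℤ) with hv
  have hvind : LinearIndependent ℤ v := by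
    have h1 := b.linearIndependent.map' M.subtype (Submodule.ker_subtype M)
    exact h1
  have hvR : LinearIndependent ℝ (fun i => (algebraMap ℤ ℝ) ∘ v i) :=
    (linearIndependent_algebraMap_comp_iff (R := ℤ) (S := ℝ)).2 hvind
  have hinjR : Function.Injective (rmap v) := by
    rw [injective_iff_map_eq_zero]
    intro x hx
    have h1 : ∑ i, x i • ((algebraMap ℤ ℝ) ∘ v i) = 0 := by
      rw [← Fintype.linearCombination_apply]
      exact hx
    funext i
    exact Fintype.linearIndependent_iff.1 hvR x h1 i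
  let θ : (Fin d → ℤ) →+ (Fin m → ℤ) :=
    { toFun := fun c => ∑ i, c i • v i
      map_zero' := by simp
      map_add' := fun x y => by
        simp only [Pi.add_apply, add_smul, Finset.sum_add_distrib] }
  have hθ : ∀ c, θ c = ∑ i, c i • v i := fun c => rfl
  have hinj : Function.Injective θ := by
    intro c c' h
    have h1 : rmap v (fun i => (c i : ℝ)) = rmap v (fun i => (c' i : ℝ)) := by
      rw [rmap_int, rmap_int]
      have h2 : ∑ i, c i • v i = ∑ i, c' i • v i := h
      rw [h2]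
    have h2 := hinjR h1
    funext i
    have := congrFun h2 i
    exact_mod_cast this
  set N' : Seminorm ℝ (Fin d → ℝ) := N.comp (rmap v) with hN'
  have hN'0 : ∀ x, N' x = 0 → x = 0 := by
    intro x hx
    have h1 : N (rmap v x) = 0 := hx
    have h2 := hN _ h1
    apply hinjR
    rw [h2, map_zero]
  refine ⟨d, θ, {x | N' x ≤ r}, ?_, symmBody_ball N' hN'0 hr, hinj, ?_, ?_, ?_⟩
  · exact finrank_span_finset_le_card S
  · intro c
    show N (rmap v (fun i => (c i : ℝ))) ≤ r ↔ N (fun i => ((θ c) i : ℝ)) ≤ r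
    rw [rmap_int]
    rfl
  · intro t ht c
    have h1 : c ∈ pts (t • {x | N' x ≤ r}) ↔ N' (t⁻¹ • (fun i => (c i : ℝ))) ≤ r := by
      show (fun i => (c i : ℝ)) ∈ t • {x | N' x ≤ r} ↔ _
      rw [Set.mem_smul_set_iff_inv_smul_mem₀ ht.ne']
      exact Iff.rfl
    have h2 : N' (t⁻¹ • (fun i => (c i : ℝ))) = t⁻¹ * N (fun i => ((θ c) i : ℝ)) := by
      rw [map_smul_eq_mul, Real.norm_eq_abs, abs_of_pos (inv_pos.2 ht)]
      congr 1
      show N (rmap v (fun i => (c i : ℝ))) = _
      rw [rmap_int]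
      rfl
    rw [h1, h2]
    show _ ↔ N (fun i => ((θ c) i : ℝ)) ≤ t * r
    rw [inv_mul_le_iff₀ ht]
  · intro x hx
    have hx' : x ∈ M := by
      have h1 : x ∈ (Submodule.span ℤ (S : Set (Fin m → ℤ))).toAddSubgroup := by
        rw [← Submodule.span_int_eq_addSubgroupClosure] at hx
        exact hx
      exact h1
    refine ⟨fun i => b.repr ⟨x, hx'⟩ i, ?_⟩
    rw [hθ]
    have h1 := b.sum_repr ⟨x, hx'⟩
    have h2 := congrArg (fun y : M => (y : Fin m → ℤ)) h1
    simp only [Submodule.coe_sum, Submodule.coe_smul] at h2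
    exact h2

end Pool.Agent.P8H91.PV
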