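import Pool.Agent.P8H91.PV.Core
import Pool.Agent.P8H91.PV.Sub
import Pool.Agent.H137R2.Weak.Final

/-!
# The structure theorem for sets of integers, with free parameters
-/

set_option autoImplicit false

namespace Pool.Agent.P8H91.PV

open Finset H112 Pool.Agent.P8H91.GR N173.BR
open scoped Pointwise

theorem LL_add' {m : ℕ} (N : Seminorm ℝ (Fin m → ℝ)) {a b : ℝ} {c d : Fin m → ℤ}
    (hc : c ∈ LL N a) (hd : d ∈ LL N b) : c + d ∈ LL N (a + b) := by
  have h1 : (fun i => (((c + d) i : ℤ) : ℝ)) = (fun i => (c i : ℝ)) + (fun i => (d i : ℝ)) := by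
    funext i; simp
  show N _ ≤ a + b
  rw [h1]
  exact (map_add_le_add N _ _).trans (add_le_add hc hd)

/-- finite subgroups of torsion-free groups are trivial -/
theorem finite_trivial {Γ : Type*} [AddCommGroup Γ] (htf : ∀ (k : ℕ) (x : Γ), k ≠ 0 → k • x = 0 →
    x = 0) (P : AddSubgroup Γ) [Finite P] {x : Γ} (hx : x ∈ P) : x = 0 := by
  have h1 : IsOfFinAddOrder (⟨x, hx⟩ : P) := isOfFinAddOrder_of_finite _
  obtain ⟨n, hn, h2⟩ := isOfFinAddOrder_iff_nsmul_eq_zero.1 h1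
  have h3 := congrArg (fun y : P => (y : Γ)) h2
  simp only [AddSubgroup.coe_nsmul, AddSubgroup.coe_zero] at h3
  exact htf n x hn.ne' h3

theorem tfZ (k : ℕ) (x : ℤ) (hk : k ≠ 0) (h : k • x = 0) : x = 0 := by
  rw [nsmul_eq_mul] at h
  rcases mul_eq_zero.1 h with h | h
  · exact absurd (by exact_mod_cast h) hk
  · exact h

theorem tfZm {m : ℕ} (k : ℕ) (x : Fin m → ℤ) (hk : k ≠ 0) (h : k • x = 0) : x = 0 := by
  funext i
  have := congrFun h i
  rw [Pi.smul_apply] at this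
  exact tfZ k (x i) hk this

/-- The weak Marton theorem, for any decidable equality. -/
theorem weak_marton_inst {m : ℕ} [inst : DecidableEq (Fin m → ℤ)] {K : ℝ}
    {A : Finset (Fin m → ℤ)} (hA : A.Nonempty) (hK : ((A + A).card : ℝ) ≤ K * A.card) :
    ∃ (P : AddSubgroup (Fin m → ℤ)) (S T : Finset (Fin m → ℤ)), Finite P ∧
      Nat.card P ≤ A.card ∧
      (((A : Set (Fin m → ℤ)) + (P : Set (Fin m → ℤ))).ncard : ℝ) ≤ 2 * K ^ 370 * A.card ∧
      (S.card : ℝ) ≤ 480 * Real.log K + 1 ∧ T ⊆ A ∧ (T.card : ℝ) ≤ K ^ 185 ∧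
      ∀ a ∈ A, ∃ t ∈ T, ∃ o : Fin m → ℤ, (∃ m : ℕ, Odd m ∧ m • o = 0) ∧
        a - t - o ∈ P ⊔ AddSubgroup.closure (S : Set (Fin m → ℤ)) := by
  have h : inst = fun a b => Classical.propDecidable (a = b) := Subsingleton.elim _ _
  subst h
  exact H137.Weak.weak_marton hA hK

theorem structure2 {K : ℝ} {A : Finset ℤ} (hA : A.Nonempty)
    (hK : ((A + A).card : ℝ) ≤ K * A.card) (hK1 : 1 ≤ K) {s : ℝ} (hs : 1 ≤ s) (j k : ℕ)
    (hk : 1 ≤ k) {κ b D ε K' : ℝ}
    (hκ : κ = Real.log (2 * K)) (hb : b = 2 * s * κ * (1 + 1 / s) ^ (2 * j + 2))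
    (hD : D = 2 * s * κ) (hε : ε = 2 * s * κ * (1 + 1 / s) ^ (j + 2) / 2 ^ j) (hε0 : 0 < ε)
    (hρk : 4 * Real.sqrt ε ≤ 1 / (48 * k))
    (h4 : (1 / 4 : ℝ) ^ (2 ^ j) ≤ Real.exp (-(2 * b + 2 * Real.log K + 2 * D)) / 4)
    (hK' : K' = K * Real.exp (2 * D + 1)) :
    ∃ (d : ℕ) (B : Set (Fin d → ℝ)) (φ : (Fin d → ℤ) →+ ℤ) (F X : Finset ℤ),
      (d : ℝ) ≤ 480 * Real.log K' + 1 ∧ Body B ∧ Set.InjOn φ (pts ((k : ℝ) • B)) ∧
      ((pts ((k : ℝ) • B)).ncard : ℝ) ≤
        (8 * Real.exp (2 * b + 2 * Real.log K + 2 * D)) * A.card ∧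
      (X.card : ℝ) ≤ K' * K' ^ 185 ∧ F ⊆ A ∧ F.Nonempty ∧
      (A.card : ℝ) ≤ (K' * K' ^ 185) * F.card ∧
      (∀ u ∈ F, ∀ v ∈ F, ∃ c ∈ pts B, u - v = φ c) ∧
      (∀ a ∈ A, ∃ x ∈ X, ∃ u ∈ F, ∃ v ∈ F, a = x + (u - v)) ∧
      ∀ c ∈ pts ((k : ℝ) • B), Df A (1 + 2 ^ j * (2 ^ j * (1 + 1))) (φ c) := by
  classical
  obtain ⟨S, E, hfin, hsize, hEA, hEcard, hEE, hDf⟩ := core2 hA hK hK1 hs j hκ hb hD hε h4
  set ρ : ℝ := 4 * Real.sqrt ε with hρ
  have hρ0 : 0 < ρ := by positivity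
  have hk1 : (1 : ℝ) ≤ k := by exact_mod_cast hk
  have hkρ : k * ρ ≤ 1 / 48 := by
    rw [le_div_iff₀ (by positivity)] at hρk
    linarith
  have hρkρ : ρ ≤ k * ρ := le_mul_of_one_le_left hρ0.le hk1
  have hρ12 : ρ ≤ 1 / 48 := hρkρ.trans hkρ
  obtain ⟨m, N, ψ, hN, h1, h2, -⟩ := lattice_repr S hfin hρ0.le (by linarith : ρ ≤ 1 / 6)
  have hannfin : Finite (ann S) := ann_finite hfin
  have hann : ∀ h ∈ ann S, h = 0 := fun h hh => finite_trivial tfZ (ann S) hh
  have hApos : (0 : ℝ) < A.card := by exact_mod_cast hA.card_pos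
  have hEpos : (0 : ℝ) < E.card := lt_of_lt_of_le (by positivity) hEcard
  have hEne : E.Nonempty := by
    rw [← Finset.card_pos]; exact_mod_cast hEpos
  obtain ⟨e₀, he₀⟩ := hEne
  have hK'0 : 0 < K' := by
    rw [hK']
    have := Real.exp_pos (2 * D + 1)
    nlinarith
  -- lifting
  have hlift : ∀ e ∈ E, ∃ c ∈ LL N ρ, ψ c = e - e₀ := by
    intro e he
    obtain ⟨c, hc, hc2⟩ := h2 (e - e₀) (hEE e he e₀ he₀)
    have := hann _ hc2
    exact ⟨c, hc, by linarith⟩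
  choose! c hcN hcψ using hlift
  -- uniqueness
  have huniq : ∀ x : Fin m → ℤ, x ∈ LL N (4 * (k * ρ)) → ψ x = 0 → x = 0 := by
    intro x hx hψ
    have h5 : N (fun i => (x i : ℝ)) < 1 / 2 := by
      have : N (fun i => (x i : ℝ)) ≤ 4 * (k * ρ) := hx
      linarith
    have h6 : ψ x ∈ bohr S 0 := by
      rw [hψ]
      intro γ _
      rw [map_zero, norm_zero]
    exact LL_zero hN ((h1 x h5 0 le_rfl).1 h6)
  set Et : Finset (Fin m → ℤ) := E.image c with hEt
  have hcinj : Set.InjOn c E := by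
    intro x hx y hy hxy
    have e1 := hcψ x hx
    have e2 := hcψ y hy
    rw [hxy, e2] at e1
    linarith
  have hEtcard : Et.card = E.card := Finset.card_image_of_injOn hcinj
  have hEtne : Et.Nonempty := ⟨_, mem_image_of_mem c he₀⟩
  have hsumcard : (Et + Et).card ≤ (E + E).card := by
    apply Finset.card_le_card_of_injOn (fun x => ψ x + 2 * e₀)
    · intro x hx
      obtain ⟨u, hu, v, hv, rfl⟩ := Finset.mem_add.1 (Finset.mem_coe.1 hx)
      obtain ⟨a, ha, rfl⟩ := mem_image.1 hu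
      obtain ⟨a', ha', rfl⟩ := mem_image.1 hv
      refine Finset.mem_coe.2 (Finset.mem_add.2 ⟨a, ha, a', ha', ?_⟩)
      show a + a' = ψ (c a + c a') + 2 * e₀
      rw [map_add, hcψ a ha, hcψ a' ha']
      ring
    · intro x hx y hy hxy
      obtain ⟨u, hu, v, hv, rfl⟩ := Finset.mem_add.1 (Finset.mem_coe.1 hx)
      obtain ⟨u', hu', v', hv', rfl⟩ := Finset.mem_add.1 (Finset.mem_coe.1 hy)
      obtain ⟨a, ha, rfl⟩ := mem_image.1 hu
      obtain ⟨a', ha', rfl⟩ := mem_image.1 hv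
      obtain ⟨b', hb', rfl⟩ := mem_image.1 hu'
      obtain ⟨b'', hb'', rfl⟩ := mem_image.1 hv'
      have e1 : ψ ((c a + c a') - (c b' + c b'')) = 0 := by
        rw [map_sub]
        have : ψ (c a + c a') + 2 * e₀ = ψ (c b' + c b'') + 2 * e₀ := hxy
        linarith
      have e2 : (c a + c a') - (c b' + c b'') ∈ LL N (4 * (k * ρ)) := by
        have := LL_add N (LL_add' N (hcN a ha) (hcN a' ha')) (LL_add' N (hcN b' hb') (hcN b'' hb''))
        have e3 : ρ + ρ + (ρ + ρ) ≤ 4 * (k * ρ) := by linarith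
        exact le_trans this e3
      exact sub_eq_zero.1 (huniq _ e2 e1)
  have hAE : (A.card : ℝ) ≤ Real.exp (2 * D + 1) * E.card := by
    have h3 : (A.card : ℝ) = Real.exp (2 * D + 1) * (A.card * Real.exp (-(2 * D + 1))) := by
      rw [Real.exp_neg]; field_simp
    rw [h3]
    exact mul_le_mul_of_nonneg_left hEcard (Real.exp_pos _).le
  have hKA : K * (A.card : ℝ) ≤ K' * E.card := by
    rw [hK', mul_assoc]
    exact mul_le_mul_of_nonneg_left hAE (by linarith)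
  have hEtK : ((Et + Et).card : ℝ) ≤ K' * Et.card := by
    have h3 : (E + E).card ≤ (A + A).card := Finset.card_le_card (Finset.add_subset_add hEA hEA)
    have h5 : ((Et + Et).card : ℝ) ≤ (A + A).card := by exact_mod_cast hsumcard.trans h3
    rw [hEtcard]
    exact h5.trans (hK.trans hKA)
  obtain ⟨P, S₀, T₀, hPfin, -, -, hS₀, -, hT₀, hcov⟩ :=
    weak_marton_inst (K := K') hEtne hEtK
  -- cosets
  have hcov' : ∀ a ∈ E, ∃ t ∈ T₀, c a - t ∈ AddSubgroup.closure (S₀ : Set (Fin m → ℤ)) := by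
    intro a ha
    obtain ⟨t, ht, o, ⟨k, hk, hko⟩, h3⟩ := hcov (c a) (mem_image_of_mem c ha)
    have ho : o = 0 := by
      refine tfZm k o ?_ hko
      rintro rfl
      exact absurd hk (by decide)
    have hP : P = ⊥ := by
      rw [eq_bot_iff]
      intro x hx
      exact (AddSubgroup.mem_bot).2 (finite_trivial tfZm P hx)
    rw [ho, hP, bot_sup_eq, sub_zero] at h3
    exact ⟨t, ht, h3⟩
  set Λ := AddSubgroup.closure (S₀ : Set (Fin m → ℤ)) with hΛ
  have hT₀ne : T₀.Nonempty := by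
    obtain ⟨t, ht, -⟩ := hcov' e₀ he₀
    exact ⟨t, ht⟩
  obtain ⟨t, ht, hmax⟩ := Finset.exists_max_image T₀
    (fun t => (E.filter fun a => c a - t ∈ Λ).card) hT₀ne
  set F : Finset ℤ := E.filter fun a => c a - t ∈ Λ with hF
  have hEF : (E.card : ℝ) ≤ K' ^ 185 * F.card := by
    have h3 : E.card ≤ T₀.card * F.card := by
      have h5 : E ⊆ T₀.biUnion fun t => E.filter fun a => c a - t ∈ Λ := by
        intro a ha
        obtain ⟨t', ht', h6⟩ := hcov' a ha
        exact mem_biUnion.2 ⟨t', ht', mem_filter.2 ⟨ha, h6⟩⟩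
      calc E.card ≤ (T₀.biUnion fun t => E.filter fun a => c a - t ∈ Λ).card :=
            Finset.card_le_card h5
        _ ≤ ∑ t' ∈ T₀, (E.filter fun a => c a - t' ∈ Λ).card := Finset.card_biUnion_le
        _ ≤ ∑ _t' ∈ T₀, F.card := Finset.sum_le_sum hmax
        _ = _ := by rw [Finset.sum_const, smul_eq_mul]
    have h5 : (E.card : ℝ) ≤ T₀.card * F.card := by exact_mod_cast h3
    exact h5.trans (mul_le_mul_of_nonneg_right hT₀ (Nat.cast_nonneg _))
  have hFne : F.Nonempty := by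
    rw [Finset.nonempty_iff_ne_empty]
    intro h
    rw [h] at hEF
    simp only [card_empty, Nat.cast_zero, mul_zero] at hEF
    linarith
  have hFA : F ⊆ A := (Finset.filter_subset _ _).trans hEA
  have hcovF : ((A + F).card : ℝ) ≤ (K' * K' ^ 185) * F.card := by
    have h3 : ((A + F).card : ℝ) ≤ (A + A).card := by
      exact_mod_cast Finset.card_le_card (Finset.add_subset_add_left hFA)
    calc ((A + F).card : ℝ) ≤ K * A.card := h3.trans hK
      _ ≤ K' * E.card := hKA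
      _ ≤ K' * (K' ^ 185 * F.card) := mul_le_mul_of_nonneg_left hEF hK'0.le
      _ = _ := by ring
  obtain ⟨X, -, hXcard, hX⟩ := Finset.ruzsa_covering_add hFne hcovF
  obtain ⟨d, θ, B, hd, hB, hinj, hpts, hptst, hsurj⟩ :=
    sub_body N hN (r := 2 * ρ) (by positivity) S₀
  have hk0 : (0 : ℝ) < k := by linarith
  have hinjOn : Set.InjOn (fun y => ψ (θ y)) (pts ((k : ℝ) • B)) := by
    intro y hy y' hy' hyy
    have h5 : θ y ∈ LL N (k * (2 * ρ)) := (hptst k hk0 y).1 hy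
    have h5' : θ y' ∈ LL N (k * (2 * ρ)) := (hptst k hk0 y').1 hy'
    have h6 : θ y - θ y' ∈ LL N (4 * (k * ρ)) := by
      have := LL_add N h5 h5'
      have e3 : (k : ℝ) * (2 * ρ) + k * (2 * ρ) = 4 * (k * ρ) := by ring
      rwa [e3] at this
    have h7 : ψ (θ y - θ y') = 0 := by
      rw [map_sub]
      have : ψ (θ y) = ψ (θ y') := hyy
      linarith
    exact hinj (sub_eq_zero.1 (huniq _ h6 h7))
  have hbohr : ∀ y ∈ pts ((k : ℝ) • B), ψ (θ y) ∈ bohr S (1 / 6) := by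
    intro y hy
    have h5 : θ y ∈ LL N (k * (2 * ρ)) := (hptst k hk0 y).1 hy
    have h6 : N (fun i => ((θ y) i : ℝ)) < 1 / 2 := by
      have : N (fun i => ((θ y) i : ℝ)) ≤ k * (2 * ρ) := h5
      linarith
    exact main_bohr_mono (by linarith) ((h1 _ h6 (k * (2 * ρ)) (by positivity)).2 h5)
  have hK'1 : 1 ≤ K' := by
    rw [hK']
    have h3 : 1 ≤ Real.exp (2 * D + 1) := by
      apply Real.one_le_exp
      have h5 : 0 ≤ κ := by
        rw [hκ]; exact Real.log_nonneg (by linarith)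
      rw [hD]
      positivity
    nlinarith
  refine ⟨d, B, ψ.comp θ, F, X, ?_, hB, hinjOn, ?_, hXcard, hFA, hFne, ?_, ?_, ?_,
    fun c hc => hDf _ (hbohr c hc)⟩
  · have h3 : (d : ℝ) ≤ S₀.card := by exact_mod_cast hd
    exact h3.trans hS₀
  · refine le_trans ?_ hsize
    have h3 : (pts ((k : ℝ) • B)).ncard ≤ (bohr S (1 / 6)).ncard :=
      Set.ncard_le_ncard_of_injOn (fun y => ψ (θ y)) hbohr hinjOn hfin
    exact_mod_cast h3
  · have h3 : Real.exp (2 * D + 1) ≤ K' := by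
      rw [hK']
      exact le_mul_of_one_le_left (Real.exp_pos _).le hK1
    calc (A.card : ℝ) ≤ Real.exp (2 * D + 1) * E.card := hAE
      _ ≤ K' * (K' ^ 185 * F.card) := by
          apply mul_le_mul h3 hEF (Nat.cast_nonneg _) hK'0.le
      _ = _ := by ring
  · intro u hu v hv
    have hu' := mem_filter.1 hu
    have hv' := mem_filter.1 hv
    have h3 : c u - c v ∈ Λ := by
      have := Λ.sub_mem hu'.2 hv'.2
      have e3 : c u - t - (c v - t) = c u - c v := by abel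
      rwa [e3] at this
    have h5 : c u - c v ∈ LL N (2 * ρ) := by
      have := LL_add N (hcN u hu'.1) (hcN v hv'.1)
      have e3 : ρ + ρ = 2 * ρ := by ring
      rwa [e3] at this
    obtain ⟨z, hz⟩ := hsurj _ h3
    refine ⟨z, ?_, ?_⟩
    · rw [hpts, hz]; exact h5
    · show u - v = ψ (θ z)
      rw [hz, map_sub, hcψ u hu'.1, hcψ v hv'.1]
      ring
  · intro a ha
    obtain ⟨x, hx, y, hy, rfl⟩ := Finset.mem_add.1 (hX ha)
    obtain ⟨u, hu, v, hv, rfl⟩ := Finset.mem_sub.1 hy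
    exact ⟨x, hx, u, hu, v, hv, rfl⟩

end Pool.Agent.P8H91.PV
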